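import Mathlib
import Pool.Agent.H.MP_159dfd_an.QG

set_option autoImplicit false

namespace Pool.Agent.Results.MP_630a53_an.Yes

open Set Real Finset Pool.Agent.H.MP_159dfd_an

/-- sources -/
def s (e : Fin 3 × Fin 3) : Fin 3 ⊕ Fin 3 := .inl e.1
/-- targets -/
def t (e : Fin 3 × Fin 3) : Fin 3 ⊕ Fin 3 := .inr e.2
/-- zero-sum weights -/
noncomputable def a (i j : Fin 3) : ℝ := if j = i then 1 else -1 / 2

theorem eig (e : Fin 3 × Fin 3) (x : ℝ) : Eig s t (fun _ => π / 2) 0 1
    fun d y => cos x * a e.1 d.1 * cos y + sin x * a e.2 d.2 * sin y := by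
  refine ⟨_, Sum.elim (fun i => cos x * a e.1 i) fun j => sin x * a e.2 j,
    fun d => trig1 _ _ _, fun d => by simp [s, t], fun v => ?_, e, ?_⟩
  · obtain ⟨i, j⟩ := e
    rcases v with v | v <;> fin_cases v <;> fin_cases i <;> fin_cases j <;>
      simp [sum_filter, Fintype.sum_prod_type, Fin.sum_univ_three, s, t, a] <;> ring
  · by_cases h : cos x = 0
    · refine ⟨π / 2, right_mem_Icc.2 (by positivity), fun e => ?_⟩
      have := sin_sq_add_cos_sq x
      simp [a] at e
      simp [h, e] at this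
    · exact ⟨0, left_mem_Icc.2 (by positivity), by simpa [a]⟩

theorem result : ∃ (V E : Type) (_ : Fintype V) (_ : Fintype E) (_ : DecidableEq V) (s t : E → V)
    (L : E → ℝ) (μ : ℝ), (∀ e, 0 < L e) ∧ Conn s t univ ∧ Fintype.card V = 6 ∧
    (∀ v, #{e | s e = v} + #{e | t e = v} = 3) ∧
    IsLeast {ν | 0 < ν ∧ ∃ f, Eig s t L 0 ν f} μ ∧ ∀ e, Hot s t L 0 μ e = Icc 0 (L e) := by
  refine ⟨_, _, inferInstance, inferInstance, inferInstance, s, t, fun _ => π / 2, 1,
    fun _ => by positivity, fun a b => ?_, rfl, by decide, ⟨⟨one_pos, _, eig 0 0⟩, ?_⟩,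
    fun e => (sep_subset _ _).antisymm fun x hx => ⟨hx, _, eig e x, Or.inl fun d y hy => ?_⟩⟩
  · have : ∀ a, Relation.EqvGen (fun a b => ∃ e ∈ Set.univ, s e = a ∧ t e = b) (.inl 0) a := by
      rintro (a | a)
      · exact .trans _ (.inr 0) _ (.rel _ _ ⟨(0, 0), trivial, rfl, rfl⟩)
          (.symm _ _ (.rel _ _ ⟨(a, 0), trivial, rfl, rfl⟩))
      · exact .rel _ _ ⟨(0, a), trivial, rfl, rfl⟩
    exact (this a).symm.trans _ _ _ (this b)
  · rintro ν ⟨h0, f, h⟩
    by_contra h1
    have k0 := sqrt_pos.2 h0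
    have k1 : √ν < 1 := (sqrt_lt' one_pos).2 (by linarith)
    rw [← sq_sqrt h0.le] at h
    generalize √ν = k at *
    obtain ⟨g, u, h1, h2, h3, e, x, h4, h5⟩ := h
    choose b b1 b2 using fun e => (h1 e).trig k0.ne'
    have m : π / 2 ∈ Icc 0 (π / 2) := right_mem_Icc.2 (by positivity)
    have s0 : 0 < sin (k * (π / 2)) := sin_pos_of_pos_of_lt_pi (by positivity) (by nlinarith [pi_pos])
    have c0 : 0 < cos (k * (π / 2)) :=
      cos_pos_of_mem_Ioo ⟨by nlinarith [pi_pos], by nlinarith [pi_pos]⟩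
    have sc := sin_sq_add_cos_sq (k * (π / 2))
    have z : ∀ e, f e 0 = u (.inl e.1) := fun e => (h2 e).1
    simp only [z] at b2
    have A : ∀ i j, u (.inl i) * _ + b (i, j) * _ = u (.inr j) :=
      fun i j => (b2 (i, j) _ m).1.symm.trans (h2 (i, j)).2
    have C := fun e => (b2 e _ m).2
    generalize sin (k * (π / 2)) = S at *
    generalize cos (k * (π / 2)) = c at *
    have v : ∀ i, b (i, 0) + b (i, 1) + b (i, 2) = 0 := fun i => by
      have := h3 (.inl i)
      simp only [sum_filter, Fintype.sum_prod_type, Fin.sum_univ_three, b1] at this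
      fin_cases i <;> simp [s, t] at this ⊢ <;> exact mul_left_cancel₀ k0.ne' (by linarith)
    have w : ∀ j, (b (0, j) + b (1, j) + b (2, j)) * c =
        (u (.inl 0) + u (.inl 1) + u (.inl 2)) * S := fun j => by
      have := h3 (.inr j)
      simp only [sum_filter, Fintype.sum_prod_type, Fin.sum_univ_three, C] at this
      fin_cases j <;> simp [s, t] at this ⊢ <;> exact mul_left_cancel₀ k0.ne' (by linarith)
    have X0 : u (.inl 0) + u (.inl 1) + u (.inl 2) = 0 := mul_right_cancel₀ s0.ne' (by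
      linear_combination (c / 3) * (v 0 + v 1 + v 2) - (w 0 + w 1 + w 2) / 3)
    have Y : ∀ j, u (.inr j) = 0 := fun j => mul_right_cancel₀ c0.ne' (by
      linear_combination (-c / 3) * (A 0 j + A 1 j + A 2 j) + S / 3 * w j + (c ^ 2 + S ^ 2) / 3 * X0)
    have X : ∀ i, u (.inl i) = 0 := fun i => mul_right_cancel₀ c0.ne' (by
      linear_combination (A i 0 + A i 1 + A i 2 + Y 0 + Y 1 + Y 2 - S * v i) / 3)
    have B : b e = 0 := mul_right_cancel₀ s0.ne' (by
      linear_combination A e.1 e.2 + Y e.2 - c * X e.1)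
    exact h5 (by rw [(b2 e x h4).1, X, B, zero_mul, zero_mul, add_zero])
  · have p := pi_pos
    have a1 : ∀ i j, a i j ≤ 1 := fun i j => by unfold a; split_ifs <;> norm_num
    have c1 := cos_nonneg_of_mem_Icc ⟨by linarith [hx.1], hx.2⟩
    have c2 := cos_nonneg_of_mem_Icc ⟨by linarith [hy.1], hy.2⟩
    have s1 := sin_nonneg_of_nonneg_of_le_pi hx.1 (by linarith [hx.2])
    have s2 := sin_nonneg_of_nonneg_of_le_pi hy.1 (by linarith [hy.2])
    have := cos_le_one (x - y)
    rw [cos_sub] at this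
    simp only [show ∀ i, a i i = 1 from fun i => if_pos rfl]
    nlinarith [sin_sq_add_cos_sq x, mul_le_mul_of_nonneg_left (a1 e.1 d.1) (mul_nonneg c1 c2),
      mul_le_mul_of_nonneg_left (a1 e.2 d.2) (mul_nonneg s1 s2)]

end Pool.Agent.Results.MP_630a53_an.Yes
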